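import Mathlib

set_option autoImplicit false

namespace Pool.Agent.Results.MP_01d095_an.SumBound

section defs
variable {X : Type*} [NormedAddCommGroup X] [NormedSpace ℝ X]

/-- numerical radius -/
noncomputable def numRad (T : X →L[ℝ] X) : ℝ :=
  sSup {r : ℝ | ∃ (x : X) (φ : X →L[ℝ] ℝ), ‖x‖ = 1 ∧ ‖φ‖ = 1 ∧ φ x = 1 ∧ r = |φ (T x)|}

/-- quotient norm modulo the skew-hermitian operators -/
noncomputable def quotNorm (T : X →L[ℝ] X) : ℝ :=
  sInf {r : ℝ | ∃ S : X →L[ℝ] X, numRad S = 0 ∧ r = ‖T - S‖}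

end defs

/-- second numerical index -/
noncomputable def index2 (X : Type*) [NormedAddCommGroup X] [NormedSpace ℝ X] : ℝ :=
  sSup {k : ℝ | 0 ≤ k ∧ ∀ T : X →L[ℝ] X, k * quotNorm T ≤ numRad T}

section basic
variable {X : Type*} [NormedAddCommGroup X] [NormedSpace ℝ X]

lemma bdd (T : X →L[ℝ] X) : BddAbove
    {r : ℝ | ∃ (x : X) (φ : X →L[ℝ] ℝ), ‖x‖ = 1 ∧ ‖φ‖ = 1 ∧ φ x = 1 ∧ r = |φ (T x)|} := by
  refine ⟨‖T‖, ?_⟩
  rintro r ⟨x, φ, hx, hφ, -, rfl⟩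
  have h1 := φ.le_opNorm (T x)
  have h2 := T.le_opNorm x
  rw [hφ, one_mul] at h1
  rw [hx, mul_one] at h2
  exact h1.trans h2

lemma le_numRad (T : X →L[ℝ] X) {x : X} {φ : X →L[ℝ] ℝ} (hx : ‖x‖ = 1) (hφ : ‖φ‖ = 1)
    (h : φ x = 1) : |φ (T x)| ≤ numRad T := le_csSup (bdd T) ⟨x, φ, hx, hφ, h, rfl⟩

lemma numRad_nonneg (T : X →L[ℝ] X) : 0 ≤ numRad T :=
  Real.sSup_nonneg (by rintro r ⟨x, φ, -, -, -, rfl⟩; exact abs_nonneg _)

lemma numRad_le (T : X →L[ℝ] X) {C : ℝ} (hC : 0 ≤ C)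
    (h : ∀ (x : X) (φ : X →L[ℝ] ℝ), ‖x‖ = 1 → ‖φ‖ = 1 → φ x = 1 → |φ (T x)| ≤ C) :
    numRad T ≤ C :=
  Real.sSup_le (by rintro r ⟨x, φ, h1, h2, h3, rfl⟩; exact h x φ h1 h2 h3) hC

lemma numRad_zero : numRad (0 : X →L[ℝ] X) = 0 :=
  le_antisymm (numRad_le _ le_rfl (by simp)) (numRad_nonneg _)

lemma le_quot (T : X →L[ℝ] X) {C : ℝ} (h : ∀ S : X →L[ℝ] X, numRad S = 0 → C ≤ ‖T - S‖) :
    C ≤ quotNorm T :=
  le_csInf ⟨_, 0, numRad_zero, rfl⟩ (by rintro r ⟨S, hS, rfl⟩; exact h S hS)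

lemma quot_le (T S : X →L[ℝ] X) (h : numRad S = 0) : quotNorm T ≤ ‖T - S‖ :=
  csInf_le ⟨0, by rintro r ⟨S, -, rfl⟩; exact norm_nonneg _⟩ ⟨S, h, rfl⟩

lemma bdd2 [Nontrivial X] :
    BddAbove {k : ℝ | 0 ≤ k ∧ ∀ T : X →L[ℝ] X, k * quotNorm T ≤ numRad T} := by
  refine ⟨1, fun k hk => ?_⟩
  obtain ⟨x, hx⟩ := exists_norm_eq X zero_le_one
  obtain ⟨φ, hφ, hφx⟩ := exists_dual_vector ℝ x (by rw [hx]; norm_num)
  rw [hx] at hφx
  have hφx' : φ x = 1 := by simpa using hφx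
  have h1 : 1 ≤ quotNorm (1 : X →L[ℝ] X) := le_quot _ fun S hS => by
    have h2 := le_numRad S hx hφ hφx'
    rw [hS] at h2
    have h3 : φ (S x) = 0 := abs_nonpos_iff.mp h2
    have h4 := φ.le_opNorm ((1 - S) x)
    have h5 := (1 - S).le_opNorm x
    rw [hφ, one_mul] at h4
    rw [hx, mul_one] at h5
    simp only [ContinuousLinearMap.sub_apply, ContinuousLinearMap.one_apply, map_sub, hφx', h3,
      sub_zero, norm_one] at h4 h5
    linarith
  have h2 : numRad (1 : X →L[ℝ] X) ≤ 1 := numRad_le _ zero_le_one (by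
    intro x φ _ _ h; simp [h])
  have h3 := hk.2 1
  nlinarith [hk.1]

lemma scaled (T : X →L[ℝ] X) (y : X) (ψ : X →L[ℝ] ℝ) (hy : ‖y‖ ≤ 1) (hψ : ‖ψ‖ ≤ 1)
    (h : ∀ y', ‖y'‖ = ‖y‖ → ψ y' ≤ ψ y) : |ψ (T y)| ≤ numRad T := by
  by_cases hy0 : y = 0
  · simp [hy0, numRad_nonneg]
  by_cases hψ0 : ψ = 0
  · simp [hψ0, numRad_nonneg]
  have a : 0 < ‖y‖ := norm_pos_iff.mpr hy0
  have b : 0 < ‖ψ‖ := norm_pos_iff.mpr hψ0
  have h1 : ‖ψ‖ ≤ ψ y / ‖y‖ := by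
    refine ψ.opNorm_le_of_unit_norm ?_ fun z hz => ?_
    · have := h (-y) (norm_neg y)
      rw [map_neg] at this
      exact div_nonneg (by linarith) a.le
    · have e1 := h (‖y‖ • z) (by rw [norm_smul, hz]; simp)
      have e2 := h (-(‖y‖ • z)) (by rw [norm_neg, norm_smul, hz]; simp)
      rw [map_neg] at e2
      rw [map_smul, smul_eq_mul] at e1 e2
      rw [le_div_iff₀ a, Real.norm_eq_abs]
      rcases abs_cases (ψ z) with h2 | h2 <;> rw [h2.1] <;> linarith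
  have h2 : ψ y = ‖ψ‖ * ‖y‖ := by
    rw [le_div_iff₀ a] at h1
    exact le_antisymm ((le_abs_self _).trans (ψ.le_opNorm y)) h1
  have h3 := le_numRad T (x := ‖y‖⁻¹ • y) (φ := ‖ψ‖⁻¹ • ψ)
    (by rw [norm_smul, norm_inv, norm_norm]; field_simp)
    (by rw [norm_smul, norm_inv, norm_norm]; field_simp)
    (by simp only [ContinuousLinearMap.smul_apply, map_smul, smul_eq_mul, h2]; field_simp)
  simp only [ContinuousLinearMap.smul_apply, map_smul, smul_eq_mul, abs_mul, abs_inv, abs_norm]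
    at h3
  have h4 : |ψ (T y)| = (‖y‖ * ‖ψ‖) * (‖y‖⁻¹ * (‖ψ‖⁻¹ * |ψ (T y)|)) := by field_simp
  have h5 : ‖y‖ * ‖ψ‖ ≤ 1 := mul_le_one₀ hy b.le hψ
  have h6 := numRad_nonneg T
  rw [h4]
  calc _ ≤ (‖y‖ * ‖ψ‖) * numRad T := by gcongr
    _ ≤ 1 * numRad T := by gcongr
    _ = _ := one_mul _

end basic

lemma key {X Y : Type*} [NormedAddCommGroup X] [NormedSpace ℝ X] [NormedAddCommGroup Y]
    [NormedSpace ℝ Y] [Nontrivial Y] (J : Y →L[ℝ] X) (P : X →L[ℝ] Y) (hJ : ∀ y, ‖J y‖ = ‖y‖)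
    (hP : ∀ x, ‖P x‖ ≤ ‖x‖) (hPJ : ∀ y, P (J y) = y)
    (hH : ∀ x y', ‖y'‖ = ‖P x‖ → ‖x - J (P x) + J y'‖ = ‖x‖) : index2 X ≤ index2 Y := by
  refine csSup_le_csSup bdd2 ⟨0, le_rfl, fun T => by simpa using numRad_nonneg T⟩ ?_
  rintro k ⟨hk0, hk⟩
  refine ⟨hk0, fun T => ?_⟩
  have h1 : quotNorm T ≤ quotNorm (J ∘L T ∘L P) := le_quot _ fun S hS => by
    have hz : numRad (P ∘L S ∘L J) = 0 := by
      refine le_antisymm (numRad_le _ le_rfl fun y ψ hy hψ h => ?_) (numRad_nonneg _)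
      have e : (ψ ∘L P) (J y) = 1 := by simp [hPJ, h]
      have hn : ‖ψ ∘L P‖ = 1 := by
        apply le_antisymm
        · refine ContinuousLinearMap.opNorm_le_bound _ zero_le_one fun x => ?_
          have := ψ.le_opNorm (P x)
          rw [hψ] at this
          exact this.trans (by simpa using hP x)
        · have := (ψ ∘L P).le_opNorm (J y)
          rwa [e, hJ, hy, norm_one, mul_one] at this
      have := le_numRad S ((hJ y).trans hy) hn e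
      rwa [hS] at this
    refine (quot_le T _ hz).trans ?_
    refine ContinuousLinearMap.opNorm_le_bound _ (norm_nonneg _) fun y => ?_
    have e : (T - P ∘L S ∘L J) y = P ((J ∘L T ∘L P - S) (J y)) := by simp [hPJ]
    rw [e]
    refine (hP _).trans ?_
    have := (J ∘L T ∘L P - S).le_opNorm (J y)
    rwa [hJ] at this
  have h2 : numRad (J ∘L T ∘L P) ≤ numRad T := numRad_le _ (numRad_nonneg T) fun x φ hx hφ h => by
    refine scaled T (P x) (φ ∘L J) (hx ▸ hP x) ?_ fun y' hy' => ?_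
    · refine ContinuousLinearMap.opNorm_le_bound _ zero_le_one fun y => ?_
      have := φ.le_opNorm (J y)
      rwa [hφ, hJ] at this
    · have e1 := φ.le_opNorm (x - J (P x) + J y')
      rw [hH x y' hy', hφ, hx, map_add, map_sub, h] at e1
      have := (le_abs_self _).trans e1
      simp only [ContinuousLinearMap.comp_apply]
      linarith
  calc k * quotNorm T ≤ k * quotNorm (J ∘L T ∘L P) := by gcongr
    _ ≤ _ := hk _
    _ ≤ _ := h2

theorem result (Y W : Type*) [NormedAddCommGroup Y] [NormedSpace ℝ Y] [CompleteSpace Y]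
    [Nontrivial Y] [NormedAddCommGroup W] [NormedSpace ℝ W] [CompleteSpace W] [Nontrivial W] :
    index2 (WithLp 2 (Y × W)) ≤ min (index2 Y) (index2 W) := by
  refine le_min ?_ ?_
  · refine key ((WithLp.prodContinuousLinearEquiv 2 ℝ Y W).symm.toContinuousLinearMap ∘L
      ContinuousLinearMap.inl ℝ Y W) (WithLp.fstL 2 ℝ Y W) (fun y => WithLp.norm_toLp_fst 2 Y W y)
      (fun x => WithLp.norm_fst_le _ x) (fun y => rfl) fun x y' h => ?_
    rw [WithLp.prod_norm_eq_of_L2, WithLp.prod_norm_eq_of_L2]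
    simp at h ⊢
    simp [h]
  · refine key ((WithLp.prodContinuousLinearEquiv 2 ℝ Y W).symm.toContinuousLinearMap ∘L
      ContinuousLinearMap.inr ℝ Y W) (WithLp.sndL 2 ℝ Y W) (fun y => WithLp.norm_toLp_snd 2 Y W y)
      (fun x => WithLp.norm_snd_le _ x) (fun y => rfl) fun x y' h => ?_
    rw [WithLp.prod_norm_eq_of_L2, WithLp.prod_norm_eq_of_L2]
    simp at h ⊢
    simp [h]

end Pool.Agent.Results.MP_01d095_an.SumBound
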